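import Pool.Agent.R901.WR.A

/-!
# MP_ffcf77_al: a word that holds with random-walk probability tending to one but is not a law
-/

open Filter Topology
open scoped commutatorElement Pointwise

namespace Pool.Agent.Results.MP_ffcf77_al.AlmostSureNotLaw

/-- `prob S w n`: the probability that `w = 1` holds for `d` independent `n`-step walks whose steps
are uniformly distributed on `S ∪ {1}`, i.e. the fraction of the `d`-tuples of `n`-step sequences
in `S ∪ {1}` whose products satisfy `w = 1`. -/
noncomputable def prob {G : Type} [Group G] (S : Set G) {d : ℕ} (w : FreeGroup (Fin d))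
    (n : ℕ) : ℝ :=
  (Nat.card {t : Fin d → Fin n → ↥(S ∪ {1}) //
    FreeGroup.lift (fun i => (List.ofFn fun k => (t i k : G)).prod) w = 1} : ℝ) /
    (Nat.card ↥(S ∪ {1}) : ℝ) ^ (d * n)

open Pool.Agent.R901.WR

lemma prob_eq {G : Type} [Group G] (S : Set G) {ι : Type} [Fintype ι] [Nonempty ι]
    (e : ι ≃ ↥(S ∪ {1})) {d : ℕ} (w : FreeGroup (Fin d)) (n : ℕ) :
    prob S w n = (Dist.unif (fun i => (e i : G))).lawProb w n := by
  rw [Dist.lawProb_unif, prob]
  congr 1
  · congr 1
    refine (Nat.card_congr ?_).symm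
    refine (Equiv.subtypeEquiv (Equiv.arrowCongr (Equiv.refl (Fin d))
      (Equiv.arrowCongr (Equiv.refl (Fin n)) e)) ?_)
    intro t
    rfl
  · rw [← Nat.card_congr e, Nat.card_eq_fintype_card]

/-- the permutation group of three letters -/
abbrev L3 := Equiv.Perm (Fin 3)

/-- the ambient group -/
abbrev W := Wr L3 (Fin 6 → ℤ)

/-- the group -/
abbrev G := ↥(Subgroup.closure (Set.range (stp (L := L3))))

/-- the generating set -/
def S : Set G := {g | (g : W) ∈ Set.range (stp (L := L3))}

/-- the index map -/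
noncomputable def em (o : Option (Sig L3)) : ↥(S ∪ {1}) :=
  o.elim ⟨1, Or.inr rfl⟩ fun x => ⟨⟨stp x, Subgroup.subset_closure ⟨x, rfl⟩⟩, Or.inl ⟨x, rfl⟩⟩

lemma em_coe (o : Option (Sig L3)) : ((em o : G) : W) = o.elim 1 stp := by
  rcases o with _ | x <;> rfl

lemma em_bij : Function.Bijective em := by
  constructor
  · intro o o' h
    have h1 : ((em o : G) : W) = ((em o' : G) : W) := by rw [h]
    rw [em_coe, em_coe] at h1
    rcases o with _ | x <;> rcases o' with _ | y
    · rfl
    · exact absurd h1.symm (stp_ne_one y)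
    · exact absurd h1 (stp_ne_one x)
    · exact congrArg some (stp_inj h1)
  · rintro ⟨g, hg⟩
    rcases hg with ⟨x, hx⟩ | hg
    · refine ⟨some x, ?_⟩
      apply Subtype.ext
      apply Subtype.ext
      exact hx
    · refine ⟨none, ?_⟩
      apply Subtype.ext
      exact hg.symm

lemma prob_S {d : ℕ} (w : FreeGroup (Fin d)) (n : ℕ) : prob S w n = (DU L3).lawProb w n := by
  rw [prob_eq S (Equiv.ofBijective em em_bij)]
  rw [← Dist.lawProb_map (Subgroup.subtype _) Subtype.val_injective]
  refine Dist.lawProb_congr (fun F => ?_) w n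
  rw [Dist.E_map]
  unfold Dist.E
  refine Finset.sum_congr rfl fun o _ => ?_
  have : ((em o : G) : W) = o.elim 1 stp := em_coe o
  change _ * F ((em o : G) : W) = _ * F (Option.elim o 1 stp)
  rw [this]
  rfl

/-- **MP_ffcf77_al, Q1 is false.** There are a group `G` with a finite symmetric generating set `S`
and a word `w` in five letters such that the probability that `w = 1` holds for five independent
lazy random walks (steps uniform on `S ∪ {1}`) is at least `1 - 3072 / (n + 1)`, so tends to `1`,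
but `w` is not a law of `G`. -/
theorem result : ∃ (G : Type) (_ : Group G) (S : Set G) (w : FreeGroup (Fin 5)),
    S.Finite ∧ S⁻¹ = S ∧ Subgroup.closure S = ⊤ ∧
    (∀ n : ℕ, 1 - 3072 / ((n : ℝ) + 1) ≤ prob S w n ∧ prob S w n ≤ 1) ∧
    Tendsto (fun n => prob S w n) atTop (𝓝 1) ∧
    ∃ g : Fin 5 → G, FreeGroup.lift g w ≠ 1 := by
  have hb : ∀ n : ℕ, 1 - 3072 / ((n : ℝ) + 1) ≤ prob S w5 n ∧ prob S w5 n ≤ 1 := by
    intro n
    rw [prob_S]
    refine ⟨?_, Dist.lawProb_le_one _ _ _⟩
    have := DU_bound (L := L3) n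
    linarith
  refine ⟨G, inferInstance, S, w5, ?_, ?_, ?_, hb, ?_, ?_⟩
  · have : S = (fun o => (em o : G)) '' (Set.range some) := by
      ext g
      constructor
      · rintro ⟨x, hx⟩
        refine ⟨some x, ⟨x, rfl⟩, Subtype.ext ?_⟩
        exact hx
      · rintro ⟨_, ⟨x, rfl⟩, rfl⟩
        exact ⟨x, rfl⟩
    rw [this]
    exact Set.toFinite _
  · ext g
    constructor
    · rintro ⟨x, hx⟩
      refine ⟨(x.2.2⁻¹, (fun j => !(x.2.1 j)), x.1⁻¹), ?_⟩
      rw [← stp_inv, hx]
      simp
    · rintro ⟨x, hx⟩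
      refine ⟨(x.2.2⁻¹, (fun j => !(x.2.1 j)), x.1⁻¹), ?_⟩
      rw [← stp_inv, hx]
      simp
  · exact Subgroup.closure_closure_coe_preimage
  · have h1 : Tendsto (fun n : ℕ => 1 - 3072 / ((n : ℝ) + 1)) atTop (𝓝 (1 - 0)) :=
      tendsto_const_nhds.sub (tendsto_const_nhds.div_atTop
        (tendsto_atTop_add_const_right _ _ tendsto_natCast_atTop_atTop))
    rw [sub_zero] at h1
    exact tendsto_of_tendsto_of_tendsto_of_le_of_le h1 tendsto_const_nhds
      (fun n => (hb n).1) (fun n => (hb n).2)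
  · -- the word is not a law
    have hmem : ∀ x : Sig L3, stp x ∈ Subgroup.closure (Set.range (stp (L := L3))) := fun x =>
      Subgroup.subset_closure ⟨x, rfl⟩
    have hlamp : ∀ a : L3, (Wr.lamp a : W) ∈ Subgroup.closure (Set.range (stp (L := L3))) := by
      intro a
      have h1 := mul_mem (hmem (a, fun _ => true, 1)) (inv_mem (hmem (1, fun _ => true, 1)))
      have h2 : stp (a, fun _ => true, (1 : L3)) * (stp ((1 : L3), fun _ => true, (1 : L3)))⁻¹ =
          Wr.lamp a := by
        simp only [stp, Wr.sws, Wr.lamp_one]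
        group
      rwa [h2] at h1
    let a : L3 := Equiv.swap 0 1
    let b : L3 := Equiv.swap 1 2
    have htr : (Wr.tr (sgv fun _ => true) : W) ∈
        Subgroup.closure (Set.range (stp (L := L3))) := by
      have h2 : stp ((1 : L3), (fun _ => true), (1 : L3)) = Wr.tr (sgv fun _ => true) := by
        simp only [stp, Wr.sws, Wr.lamp_one]
        group
      rw [← h2]
      exact hmem _
    let x : G := ⟨Wr.lamp a, hlamp a⟩
    let z : G := ⟨Wr.lamp b, hlamp b⟩
    let y : G := ⟨Wr.tr (sgv fun _ => true), htr⟩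
    refine ⟨![x, y, z, y, 1], ?_⟩
    rw [lift_w5]
    intro h
    have h1 : ⁅⁅(Wr.lamp a : W), (Wr.tr (sgv fun _ => true) : W)⁆,
        (1 : W) * ⁅(Wr.lamp b : W), (Wr.tr (sgv fun _ => true) : W)⁆ * (1 : W)⁻¹⁆ = 1 := by
      have h3 := congrArg (Subgroup.subtype _) h
      simp only [map_commutatorElement, map_mul, map_inv, map_one] at h3
      exact h3
    rw [Wr.comm_eq_one_iff (Wr.comm_s _ _) (Wr.conj_s _ _ (Wr.comm_s _ _))] at h1
    have h2 := h1 0
    rw [Wr.conj_f _ _ (Wr.comm_s _ _), Wr.comm_f, Wr.comm_f] at h2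
    have hne : ¬ (0 - sgv fun _ => true) = (0 : Fin 6 → ℤ) := by
      rw [zero_sub, neg_eq_zero]
      exact sgv_ne_zero _
    simp only [Wr.lamp_f, Wr.lamp_s, Wr.tr_s, Wr.tr_f, if_neg hne, Wr.one_f, Wr.one_s, sub_self,
      if_true, inv_one, mul_one, one_mul] at h2
    revert h2
    simp only [commutatorElement_def]
    decide

end Pool.Agent.Results.MP_ffcf77_al.AlmostSureNotLaw
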